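import Pool.Agent.H493Z.FI.Main

set_option autoImplicit false

open Pool.Agent.H493Z.FI

namespace Pool.Agent.Results.MP_05c1ee_al.Counterexample

/-- An equidimensional F-injective local ring, essentially of finite type over a finite field,
with a parameter ideal that is not Frobenius closed. -/
theorem result : ∃ (p : ℕ) (_ : Fact p.Prime) (R : Type) (_ : CommRing R) (_ : IsNoetherianRing R)
    (_ : IsLocalRing R) (_ : CharP R p) (_ : Algebra (ZMod p) R),
    Algebra.EssFiniteType (ZMod p) R ∧
    (∀ P ∈ minimalPrimes R, ringKrullDim (R ⧸ P) = ringKrullDim R) ∧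
    FInjective p R ∧
    ∃ (d : ℕ) (x : Fin d → R), (d : WithBot ℕ∞) = ringKrullDim R ∧
      (Ideal.span (Set.range x)).radical = IsLocalRing.maximalIdeal R ∧
      frobClosure p (Ideal.span (Set.range x)) ≠ (Ideal.span (Set.range x) : Set R) :=
  ⟨2, inferInstance, H721Z.FC.R, inferInstance, inferInstance, inferInstance, inferInstance, algR,
    essFT, H721Z.FC.equidim, fInjective, 4, fun j => H721Z.FC.pr (H721Z.FC.par j),
    H721Z.FC.dim_eq.symm, H721Z.FC.par_radical, fun h =>
      H721Z.FC.rho_notMem (by
        have : H721Z.FC.pr H721Z.FC.rho ∈ frobClosure 2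
          (Ideal.span (Set.range fun j => H721Z.FC.pr (H721Z.FC.par j))) := ⟨1, H721Z.FC.frob_mem⟩
        rw [h] at this
        exact this)⟩

end Pool.Agent.Results.MP_05c1ee_al.Counterexample
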